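import Pool.Agent.W353.AB.Govern
import Pool.Agent.W353.AB.Hi

/-!
# Zeros and poles at the edge for products of twists of curves over all number fields

`K` is a number field (the problem is the case `K = ℚ`; a variety over a number field `F` is a variety
over `ℚ` by restriction of the base, with the same `L`-functions), `C₁, …, C_r` are hyperelliptic
curves `y² = f_j(x)` over `K` with `f_j` of odd degree `2 g_j + 1 ≥ 3` (all elliptic curves are of this
kind).  For a number field `F ⊇ K` and `d = (d₁, …, d_r)`, `d_j ∈ F^*`, the variety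
`X_d = ∏ C_{j, d_j}` over `F` is the product of the quadratic twists `d_j y² = f_j(x)`.  The theorem is
about the zeros and poles on the line `Re s = i/2 + 1` of the meromorphic continuations of the
`L`-functions of all `Hⁱ(X_d)` for all `F` and `d` together.
-/

set_option autoImplicit false

namespace Pool.Agent.Results.MP_039d94_nt.AllNumberFields

open NumberField IsDedekindDomain Filter Topology Polynomial
open scoped TensorProduct

/-- Number of affine points of `d y² = f(x)` with coordinates in the extension of degree `m` of the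
finite field `k`, that is, the field of the elements of the algebraic closure of `k` that are fixed
by the `m`-th power of the Frobenius of `k`. -/
noncomputable def affineCount (k : Type) [Field k] (f : k[X]) (d : k) (m : ℕ) : ℕ :=
  Nat.card {P : AlgebraicClosure k × AlgebraicClosure k //
    P.1 ^ (Nat.card k ^ m) = P.1 ∧ P.2 ^ (Nat.card k ^ m) = P.2 ∧
    algebraMap k (AlgebraicClosure k) d * P.2 ^ 2 = aeval P.1 f}

/-- Trace of the `m`-th power of the Frobenius at `v` on `H¹` of the smooth projective curve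
`d y² = f(x)`, `deg f` odd: it is `q^m + 1` minus the number of points over the field with `q^m`
elements, and there is one point at infinity. -/
noncomputable def traceH1 {F : Type} [Field F] [NumberField F] (v : HeightOneSpectrum (𝓞 F))
    (f : (𝓞 F)[X]) (d : 𝓞 F) (m : ℕ) : ℤ :=
  haveI : v.asIdeal.IsMaximal := v.isMaximal
  letI : Field (𝓞 F ⧸ v.asIdeal) := Ideal.Quotient.field v.asIdeal
  (Ideal.absNorm v.asIdeal : ℤ) ^ m + 1 -
    (affineCount (𝓞 F ⧸ v.asIdeal) (f.map (Ideal.Quotient.mk v.asIdeal))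
      (Ideal.Quotient.mk v.asIdeal d) m + 1)

/-- Trace of the `m`-th power of the Frobenius at `v` on `Hⁱ` of the product of the curves
`d_j y² = f_j(x)`, by the Künneth formula: `Hⁱ` is the sum over all `e : Fin r → {0, 1, 2}` of sum `i`
of the tensor products of the `H^{e_j}` of the curves, and the traces on the `H⁰`, `H¹`, `H²` of a
curve are `1`, `traceH1`, `q^m`. -/
noncomputable def traceH {F : Type} [Field F] [NumberField F] (i : ℕ) {r : ℕ}
    (v : HeightOneSpectrum (𝓞 F)) (f : Fin r → (𝓞 F)[X]) (d : Fin r → 𝓞 F) (m : ℕ) : ℤ :=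
  ∑ e : Fin r → Fin 3, if ∑ j, (e j : ℕ) = i then
    ∏ j, (if e j = 0 then 1 else if e j = 1 then traceH1 v (f j) (d j) m
      else (Ideal.absNorm v.asIdeal : ℤ) ^ m) else 0

open Classical in
/-- The Euler product `L(Hⁱ(X_d / F), s)`.  At the primes `v` outside the finite set `S` the factor is
`det(1 - Frob q^{-s} | Hⁱ)⁻¹ = exp(∑_{m ≥ 1} Tr(Frob^m | Hⁱ) q^{-ms} / m)`; at the primes of `S`,
which contains the primes of bad reduction, it is `B_v(q^{-s})⁻¹` for a polynomial `B_v`. -/
noncomputable def LFun {F : Type} [Field F] [NumberField F] (i : ℕ) {r : ℕ}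
    (f : Fin r → (𝓞 F)[X]) (d : Fin r → 𝓞 F) (S : Finset (HeightOneSpectrum (𝓞 F)))
    (B : HeightOneSpectrum (𝓞 F) → ℂ[X]) (s : ℂ) : ℂ :=
  ∏' v : HeightOneSpectrum (𝓞 F),
    if v ∈ S then ((B v).eval (((Ideal.absNorm v.asIdeal : ℕ) : ℂ) ^ (-s)))⁻¹
    else Complex.exp (∑' m : ℕ, (traceH i v f d (m + 1) : ℂ) *
      ((Ideal.absNorm v.asIdeal : ℕ) : ℂ) ^ (-((m + 1 : ℂ) * s)) / (m + 1 : ℂ))

/-- The nonempty sets `A` of factors such that `⊗_{j ∈ A} H¹(C_j)` occurs (up to a Tate twist) in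
`Hⁱ` of the product. -/
def sets (r i : ℕ) : Finset (Finset (Fin r)) :=
  Finset.univ.filter fun A => A.Nonempty ∧ A.card ≤ i ∧ i + A.card ≤ 2 * r ∧ Even (i + A.card)

/-- The rank `C(r, i/2)` of the trivial part of `Hⁱ(i/2)`, zero for odd `i`. -/
def triv (r i : ℕ) : ℕ := if Even i then r.choose (i / 2) else 0

section
variable {K : Type} [Field K] [NumberField K] {r : ℕ}

/-- The polynomials `f_j`, read over the extension `F` of `K`. -/
noncomputable def polyOver (F : Type) [Field F] [NumberField F] [Algebra K F]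
    (f : Fin r → (𝓞 K)[X]) (j : Fin r) : (𝓞 F)[X] := (f j).map (algebraMap (𝓞 K) (𝓞 F))

/-- A variety `X_d = ∏ {d_j y² = f_j(x)}` over the number field `F`, `K ⊆ F`, together with a finite
set `S` of primes of `F` that contains the bad ones and Euler factors `B_v` of `L(Hⁱ(X_d), s)`,
`v ∈ S`, without zeros on the line `Re s = i/2 + 1`. -/
structure Twist (i : ℕ) (f : Fin r → (𝓞 K)[X]) (F : IntermediateField K (AlgebraicClosure K))
    [NumberField F] where
  d : Fin r → 𝓞 F
  d_ne_zero : ∀ j, d j ≠ 0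
  S : Finset (HeightOneSpectrum (𝓞 F))
  good : ∀ v, v ∉ S → ∀ j, 2 * d j * (polyOver F f j).leadingCoeff ∉ v.asIdeal ∧
    ((polyOver F f j).map (Ideal.Quotient.mk v.asIdeal)).Separable
  B : HeightOneSpectrum (𝓞 F) → ℂ[X]
  B_ne_zero : ∀ v ∈ S, ∀ s : ℂ, s.re = (i : ℝ) / 2 + 1 →
    (B v).eval (((Ideal.absNorm v.asIdeal : ℕ) : ℂ) ^ (-s)) ≠ 0

/-- `log |L(Hⁱ(X_d / F), i/2 + 1 + iτ + ε)| / log(1/ε)`. -/
noncomputable def Twist.size {i : ℕ} {f : Fin r → (𝓞 K)[X]}
    {F : IntermediateField K (AlgebraicClosure K)} [NumberField F] (X : Twist i f F)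
    (τ ε : ℝ) : ℝ :=
  Real.log ‖LFun i (polyOver F f) X.d X.S X.B ((i : ℂ) / 2 + 1 + τ * Complex.I + ε)‖ /
    Real.log (1 / ε)

/-- `L(Hⁱ(X_d / F), s)` has a meromorphic continuation to a neighbourhood of `i/2 + 1 + iτ`, of order
`m` at `i/2 + 1 + iτ`. -/
def Twist.HasOrder {i : ℕ} {f : Fin r → (𝓞 K)[X]}
    {F : IntermediateField K (AlgebraicClosure K)} [NumberField F] (X : Twist i f F)
    (τ : ℝ) (m : ℤ) : Prop :=
  ∃ Λ : ℂ → ℂ, MeromorphicAt Λ ((i : ℂ) / 2 + 1 + τ * Complex.I) ∧
    (∀ᶠ s in 𝓝 ((i : ℂ) / 2 + 1 + τ * Complex.I), (i : ℝ) / 2 + 1 < s.re →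
      Λ s = LFun i (polyOver F f) X.d X.S X.B s) ∧
    meromorphicOrderAt Λ ((i : ℂ) / 2 + 1 + τ * Complex.I) = m

/-- `∏_{j ∈ A} d_j` as an element of the algebraic closure of `K`. -/
noncomputable def dA {F : IntermediateField K (AlgebraicClosure K)} (d : Fin r → 𝓞 F)
    (A : Finset (Fin r)) : AlgebraicClosure K := (((∏ j ∈ A, d j : 𝓞 F) : F) : AlgebraicClosure K)

/-- The twists `d` over `F` and `e` over `F₀` (`F₀ = F ∩ M` below), as far as `Hⁱ` is concerned: with
`d_A = ∏_{j ∈ A} d_j`, for all `A ∈ sets r i`, either `d_A e_A` is a square in `F` and `√e_A ∈ M`, or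
`√d_A ∉ F M` and `√e_A ∉ M`. -/
def Related (i : ℕ) (M : IntermediateField K (AlgebraicClosure K))
    {F F₀ : IntermediateField K (AlgebraicClosure K)} (d : Fin r → 𝓞 F) (e : Fin r → 𝓞 F₀) :
    Prop :=
  ∀ A ∈ sets r i, ((∃ u ∈ F, u ^ 2 = dA d A * dA e A) ∧ ∃ t ∈ M, t ^ 2 = dA e A) ∨
    ((∀ y ∈ F ⊔ M, y ^ 2 ≠ dA d A) ∧ ∀ y ∈ M, y ^ 2 ≠ dA e A)

/-- `M` and the finite set `Θ` of heights govern the zeros and poles on the line `Re s = i/2 + 1` of
`L(Hⁱ(X_d / F), s)` for all `(F, d)` in the class `P`.  Put `c = C(r, i/2)` for even `i` and `c = 0`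
for odd `i`.

1. If no `√d_A`, `A ∈ sets r i`, lies in `F M`, or if `τ ∉ Θ`, then there are arbitrarily small
`ε > 0` with `|log |L(Hⁱ(X_d / F), i/2 + 1 + iτ + ε)| / log(1/ε) - c [τ = 0]| < 1/k`, and every
meromorphic continuation to a neighbourhood of `i/2 + 1 + iτ` has neither a zero nor a pole there,
but for a pole of order `c` at `i/2 + 1` when `i` is even.

2. If `e` over `F₀ = F ∩ M` is related to `d`, then there are arbitrarily small `ε > 0` for which
the values of `log |L| / log(1/ε)` for `X_d / F` and `X_e / F₀` differ by less than `1/k`, and if the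
`L`-functions of `X_d / F` and `X_e / F₀` have meromorphic continuations to a neighbourhood of
`i/2 + 1 + iτ` then the orders at that point are equal.

3. There is a list of at most `2^((#(sets r i) + 1)([M : K] + 1))` twists `e` over subfields of `M`
such that every twist `d` over a number field `F ⊇ K` is related to a member of the list over
`F ∩ M`. -/
def Governs (i : ℕ) (f : Fin r → (𝓞 K)[X]) (k : ℕ)
    (M : IntermediateField K (AlgebraicClosure K)) (Θ : Finset ℝ)
    (P : ∀ (F : IntermediateField K (AlgebraicClosure K)) [NumberField F],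
      (Fin r → 𝓞 F) → Prop) : Prop :=
  (∀ (F : IntermediateField K (AlgebraicClosure K)) [NumberField F] (X : Twist i f F),
    P F X.d → ∀ τ : ℝ, (τ ∉ Θ ∨ ∀ A ∈ sets r i, ∀ y ∈ F ⊔ M, y ^ 2 ≠ dA X.d A) →
      (∃ᶠ ε : ℝ in 𝓝[>] 0, |X.size τ ε - if τ = 0 then (triv r i : ℝ) else 0| < 1 / k) ∧
      ∀ m : ℤ, X.HasOrder τ m → m = -if τ = 0 then (triv r i : ℤ) else 0) ∧
  (∀ (F F₀ : IntermediateField K (AlgebraicClosure K)) [NumberField F] [NumberField F₀],
    F₀ = F ⊓ M → ∀ (X : Twist i f F) (Y : Twist i f F₀), P F X.d → P F₀ Y.d →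
      Related i M X.d Y.d → ∀ τ : ℝ,
      (∃ᶠ ε : ℝ in 𝓝[>] 0, |X.size τ ε - Y.size τ ε| < 1 / k) ∧
      ∀ m m' : ℤ, X.HasOrder τ m → Y.HasOrder τ m' → m = m') ∧
  ∃ (l : ℕ) (G : Fin l → IntermediateField K (AlgebraicClosure K)) (e : ∀ a, Fin r → 𝓞 (G a)),
    l ≤ 2 ^ (((sets r i).card + 1) * (Module.finrank K M + 1)) ∧
    (∀ a, G a ≤ M ∧ NumberField (G a) ∧ ∀ j, e a j ≠ 0) ∧
    ∀ (F : IntermediateField K (AlgebraicClosure K)) [NumberField F] (d : Fin r → 𝓞 F),
      (∀ j, d j ≠ 0) → ∃ a, G a = F ⊓ M ∧ Related i M d (e a)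

end

/-- The intertwining number of the representation of `Gal(K̄/K)` induced from the quadratic character
of `F(√D)/F`: the number of the simple factors of `F ⊗_K F` in which `D ⊗ D` is a square. -/
noncomputable def intertwining (K F : Type) [Field K] [Field F] [Algebra K F] (D : F) : ℕ :=
  Nat.card {m : MaximalSpectrum (F ⊗[K] F) // IsSquare (Ideal.Quotient.mk m.asIdeal (D ⊗ₜ D))}

section
variable {K : Type} [Field K] [NumberField K] {i r : ℕ} {f : Fin r → (𝓞 K)[X]}

open Pool.Agent.W353.TP Pool.Agent.W353.AB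

theorem gd {F : IntermediateField K (AlgebraicClosure K)} [NumberField F] (X : Twist i f F) :
    ∀ v, v ∉ X.S → Pool.Agent.H126U.Gd (bc F f) X.d v := by
  intro v hv j
  have h := (X.good v hv j).1
  refine ⟨fun h2 => h ?_, fun h2 => h ?_, fun h2 => h ?_⟩
  · rw [mul_assoc]
    exact v.asIdeal.mul_mem_right _ h2
  · rw [mul_right_comm]
    exact v.asIdeal.mul_mem_left _ h2
  · exact v.asIdeal.mul_mem_left _ h2

theorem bne {F : IntermediateField K (AlgebraicClosure K)} [NumberField F] (X : Twist i f F)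
    (τ : ℝ) : ∀ v ∈ X.S, (X.B v).eval (((Ideal.absNorm v.asIdeal : ℕ) : ℂ) ^
      (-((i : ℂ) / 2 + 1 + τ * Complex.I))) ≠ 0 := by
  intro v hv
  refine X.B_ne_zero v hv _ ?_
  have h2 : ((i : ℂ) / 2) = (((i : ℝ) / 2 : ℝ) : ℂ) := by push_cast; rfl
  rw [h2]
  simp

end

open Pool.Agent.W353.TP Pool.Agent.W353.AB in
/-- **One finite extension governs the zeros and poles at the edge over all number fields of bounded
degree.**  Let `N = ∑_A C(r - |A|, (i - |A|)/2) ∏_{j ∈ A} 2 g_j`, the sum over `A ∈ sets r i`, the rest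
of the dimension of `Hⁱ`, and `k ≥ 1`.  Let `P` be a class of pairs `(F, d)`, `F` a number
field containing `K`, `d` a twist over `F`, such that for every pair `[F : K] ≤ n` or, for all
`A ∈ sets r i`, the representation of `Gal(K̄/K)` induced from the quadratic character of
`F(√d_A)/F` has intertwining number at most `n`; for instance all `(F, d)` with `[F : K] ≤ n`.  Then
there are a finite Galois extension `M` of `K` and a set `Θ` of at most `2 n (k N)²` real numbers
that govern the zeros and poles for all pairs in `P`.  If `[F : K] ≤ m` for all pairs in `P`, then the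
degree of `M` is at most `((4^r m)!)^(2 n (k N)²)`. -/
theorem result (K : Type) [Field K] [NumberField K] (r i : ℕ) (f : Fin r → (𝓞 K)[X])
    (hodd : ∀ j, Odd (f j).natDegree) (h3 : ∀ j, 3 ≤ (f j).natDegree) (n k : ℕ) (hk : 1 ≤ k)
    (N : ℕ) (hN : N = ∑ A ∈ sets r i,
      (r - A.card).choose ((i - A.card) / 2) * ∏ j ∈ A, ((f j).natDegree - 1))
    (P : ∀ (F : IntermediateField K (AlgebraicClosure K)) [NumberField F],
      (Fin r → 𝓞 F) → Prop)
    (hP : ∀ (F : IntermediateField K (AlgebraicClosure K)) [NumberField F] (d : Fin r → 𝓞 F),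
      P F d → Module.finrank K F ≤ n ∨
        ∀ A ∈ sets r i, intertwining K F ((∏ j ∈ A, d j : 𝓞 F) : F) ≤ n) (m : ℕ) :
    ∃ (M : IntermediateField K (AlgebraicClosure K)) (Θ : Finset ℝ),
      FiniteDimensional K M ∧ IsGalois K M ∧ Θ.card ≤ 2 * n * (k * N) ^ 2 ∧
      ((∀ (F : IntermediateField K (AlgebraicClosure K)) [NumberField F] (d : Fin r → 𝓞 F),
        P F d → Module.finrank K F ≤ m) →
          Module.finrank K M ≤ (4 ^ r * m).factorial ^ (2 * n * (k * N) ^ 2)) ∧
      Governs i f k M Θ P := by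
  classical
  have hNb : (N : ℝ) = ∑ A ∈ (syH i f hodd h3).P, (syH i f hodd h3).b A := by
    rw [hN]
    push_cast
    change _ = ∑ A ∈ Pool.Agent.H126U.idx r i, Pool.Agent.H126U.bb i f A
    refine Finset.sum_congr rfl fun A _ => ?_
    unfold Pool.Agent.H126U.bb Pool.Agent.H126U.mult
    congr 1
    refine Finset.prod_congr rfl fun j _ => ?_
    rw [Nat.cast_sub (by have := h3 j; omega)]
    push_cast
    ring
  obtain ⟨M, Θ, hM1, hM2, hM3, hΘ, hdeg, hA, hB⟩ := govern (syH i f hodd h3) n k m N hk hNb P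
    (by
      intro F _ d h
      rcases hP F d h with h1 | h1
      · exact Bd_of_finrank (𝒮 := syH i f hodd h3) h1 d
      · exact fun A hA => h1 A hA)
  have hlimo : ∀ (F : IntermediateField K (AlgebraicClosure K)) [NumberField F]
      (X : Twist i f F) (τ : ℝ) (m : ℤ), X.HasOrder τ m →
      Tendsto (XHi i f F X.d X.S X.B τ) (𝓝[>] 0)
        (𝓝 (-(m : ℝ) - if τ = 0 then (triv r i : ℝ) else 0)) := by
    intro F _ X τ m hm
    obtain ⟨Λ, h1, h2, hm⟩ := hm
    have := order_Hi i hodd h3 (gd X) X.B τ (bne X τ) Λ h1 h2 hm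
    exact this
  have hsize : ∀ (F : IntermediateField K (AlgebraicClosure K)) [NumberField F]
      (X : Twist i f F) (τ ε : ℝ), XHi i f F X.d X.S X.B τ ε =
        X.size τ ε - if τ = 0 then (triv r i : ℝ) else 0 := by
    intro F _ X τ ε
    unfold XHi Twist.size
    congr 1
  refine ⟨M, Θ, hM1, hM2, hΘ, hdeg, fun F _ X hX τ hcond => ?_,
    fun F F₀ _ _ hF₀ X Y hX hY hR τ => ?_, ?_⟩
  · obtain ⟨h1, h2⟩ := hA F X.d X.d_ne_zero τ _ (size_Hi i hodd h3 (gd X) X.B τ (bne X τ)).2 hX
      hcond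
    constructor
    · simpa only [hsize] using h1
    · intro m hm
      refine int_eq_of_abs hk (h2 _ (hlimo F X τ m hm)) (Or.inr ?_)
      by_cases h : τ = 0
      · simp only [if_pos h]
        push_cast
        ring
      · simp only [if_neg h]
        push_cast
        ring
  · obtain ⟨h1, h2⟩ := hB F F₀ hF₀ X.d Y.d X.d_ne_zero Y.d_ne_zero τ _ _
      (size_Hi i hodd h3 (gd X) X.B τ (bne X τ)).2
      (size_Hi i hodd h3 (gd Y) Y.B τ (bne Y τ)).2 hX hY hR
    constructor
    · simpa only [hsize, sub_sub_sub_cancel_right] using h1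
    · intro m m' hm hm'
      refine int_eq_of_abs hk (h2 _ _ (hlimo F X τ m hm) (hlimo F₀ Y τ m' hm')) (Or.inr ?_)
      ring
  · obtain ⟨l, s, hl, hs⟩ := finite_list (syH i f hodd h3) M
    refine ⟨l, fun a => (s a).G, fun a => (s a).e, hl, fun a => ⟨(s a).le, (s a).nf, (s a).he⟩,
      fun F _ d hd => ?_⟩
    obtain ⟨a, ha, hR⟩ := hs F d hd
    exact ⟨a, ha, hR⟩

end Pool.Agent.Results.MP_039d94_nt.AllNumberFields
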