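import Pool.Agent.W353.EH.Main

/-!
# Poles and zeros on the edge line over the subfields of a field with symmetric Galois group

`X` is a smooth projective variety over a number field `K`, for example over `K = ℚ`, and `i` an
integer.  For every number field `F ⊇ K` the variety `X_F`, seen as a variety over `ℚ`, is smooth and
projective.  The theorem is about the order of `L(H^i(X_F), s)` at the points of the line
`Re s = i/2 + 1`, the boundary of the half plane of absolute convergence, for fixed `X` and varying `F`.
Nothing is assumed about the automorphy of the Galois representation `H^i(X)`.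
The definitions are in `Pool.Agent.W353.EH.Defs` and `Pool.Agent.W353.EF.Defs`.
-/

set_option autoImplicit false

namespace Pool.Agent.Results.MP_039d94_nt.EdgeSymmetricClosure

open NumberField Pool.Agent.W353.EH

/-- **Poles and zeros on the edge line between a number field and the closure of an extension with
symmetric group.**  For every `N` there is a number `n₀` with the following property.  Let `X` be a
projective variety of dimension `d` over a number field `K` (for instance `K = ℚ`), `0 ≤ i ≤ 2d`, `N` the
`i`-th Betti number, and `s_τ = i/2 + 1 + iτ`, `τ` real.  Let `F/K` be an extension of degree at least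
`n₀` with symmetric Galois group, `L` its closure and `Q = K(√disc F)`.  Suppose that the `L`-functions
`L(H^i(X_M), s)` over all Young subfields `M` of `L` have meromorphic continuations to neighbourhoods
of `s_τ`, and let `m r` be their orders at `s_τ`, so `m ⊥` is the order over `L` and `m ⊤` the order
over `K`.

Let `M` be any field between `K` and `L`, and `k = m ⊥` if `Q ⊆ M`, `k = m ⊤` otherwise.  Then
`log |L(H^i(X_M), s_τ + ε)| / log(1/ε) → -k` as `ε → 0+`, and `k` is the order of every meromorphic
continuation of `L(H^i(X_M), s)`: if the `L`-functions over `K` and over `L` have neither a pole nor a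
zero at `s_τ`, then there is none over any field between them.  Moreover `|m ⊤| + |m ⊥ - m ⊤| ≤ N`, and
even `≤ 2N/π` if `τ ≠ 0`. -/
theorem result (N : ℕ) : ∃ n₀ : ℕ, ∀ (K : Type) [Field K] [NumberField K] (n d i : ℕ)
    (X : Set (MvPolynomial (Fin n) (𝓞 K))), i ≤ 2 * d → SymmetricEdge X d i N n₀ := by
  obtain ⟨n₀, h⟩ := all N
  exact ⟨n₀, fun K _ _ n d i X hi => (h K n d i X hi).2⟩

end Pool.Agent.Results.MP_039d94_nt.EdgeSymmetricClosure
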